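import Mathlib

/-!
# Symmetric walks of even length

In a walk of even length with symmetric steps in a commutative group the origin is a most
probable end point.
-/

namespace Pool.Agent.Y133

open Finset

variable {α : Type*} [Fintype α] {G : Type*} [AddCommGroup G]

open Classical in
/-- The number of pairs with given sum is at most the number of pairs with the same value. -/
lemma card_pairs_le {β : Type*} [Fintype β] (S : β → G) (q : G) :
    (univ.filter fun u : β × β => S u.1 + S u.2 = q).card ≤
      (univ.filter fun u : β × β => S u.1 = S u.2).card := by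
  set n : G → ℕ := fun y => (univ.filter fun u : β => S u = y).card with hn
  set Y : Finset G := univ.image S ∪ univ.image (fun u => q - S u) with hY
  have hmem : ∀ u, S u ∈ Y := fun u => mem_union_left _ (mem_image_of_mem _ (mem_univ u))
  have hinv : ∀ y ∈ Y, q - y ∈ Y := by
    intro y hy
    rcases mem_union.mp hy with h | h
    · obtain ⟨u, _, rfl⟩ := mem_image.mp h
      exact mem_union_right _ (mem_image_of_mem _ (mem_univ u))
    · obtain ⟨u, _, rfl⟩ := mem_image.mp h
      rw [sub_sub_cancel]
      exact hmem u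
  have h1 : (univ.filter fun u : β × β => S u.1 + S u.2 = q).card = ∑ y ∈ Y, n y * n (q - y) := by
    rw [card_eq_sum_card_fiberwise (f := fun u : β × β => S u.1) (t := Y) (fun u _ => hmem u.1)]
    refine sum_congr rfl fun y _ => ?_
    rw [hn]
    simp only
    rw [← card_product, ]
    congr 1
    ext u
    simp only [mem_filter, mem_univ, true_and, mem_product]
    constructor
    · rintro ⟨h1, h2⟩
      exact ⟨h2, by rw [← h1, h2]; abel⟩
    · rintro ⟨h1, h2⟩
      exact ⟨by rw [h1, h2]; abel, h1⟩
  have h2 : (univ.filter fun u : β × β => S u.1 = S u.2).card = ∑ y ∈ Y, n y * n y := by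
    rw [card_eq_sum_card_fiberwise (f := fun u : β × β => S u.1) (t := Y) (fun u _ => hmem u.1)]
    refine sum_congr rfl fun y _ => ?_
    rw [hn]
    simp only
    rw [← card_product]
    congr 1
    ext u
    simp only [mem_filter, mem_univ, true_and, mem_product]
    constructor
    · rintro ⟨h1, h2⟩
      exact ⟨h2, by rw [← h1, h2]⟩
    · rintro ⟨h1, h2⟩
      exact ⟨by rw [h1, h2], h1⟩
  have h3 : ∑ y ∈ Y, n (q - y) * n (q - y) = ∑ y ∈ Y, n y * n y := by
    refine sum_bij' (fun y _ => q - y) (fun y _ => q - y) hinv hinv ?_ ?_ ?_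
    · intro y _; simp
    · intro y _; simp
    · intro y _; rfl
  have h4 : 2 * ∑ y ∈ Y, n y * n (q - y) ≤ 2 * ∑ y ∈ Y, n y * n y := by
    calc 2 * ∑ y ∈ Y, n y * n (q - y) = ∑ y ∈ Y, 2 * (n y * n (q - y)) := by rw [mul_sum]
      _ ≤ ∑ y ∈ Y, (n y * n y + n (q - y) * n (q - y)) := by
          refine sum_le_sum fun y _ => ?_
          have := two_mul_le_add_sq (n y) (n (q - y))
          nlinarith [this]
      _ = 2 * ∑ y ∈ Y, n y * n y := by rw [sum_add_distrib, h3]; ring
  rw [h1, h2]
  omega

/-- **Symmetric walks of even length.** -/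
theorem card_walk_le (φ : α → G) (ν : α ≃ α) (hν : ∀ x, φ (ν x) = - φ x) {N : ℕ} (hN : Even N)
    (q : G) :
    Nat.card {x : Fin N → α // ∑ i, φ (x i) = q} ≤
      Nat.card {x : Fin N → α // ∑ i, φ (x i) = 0} := by
  classical
  obtain ⟨k, rfl⟩ := hN
  have key : ∀ r : G, Nat.card {x : Fin (k + k) → α // ∑ i, φ (x i) = r} =
      (univ.filter fun u : (Fin k → α) × (Fin k → α) =>
        (∑ i, φ (u.1 i)) + (∑ i, φ (u.2 i)) = r).card := by
    intro r
    rw [Nat.card_eq_fintype_card, Fintype.card_subtype]
    symm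
    refine card_equiv (Fin.appendEquiv k k) fun u => ?_
    simp only [mem_filter, mem_univ, true_and, Fin.sum_univ_add, Fin.appendEquiv,
      Equiv.coe_fn_mk, Fin.append_left, Fin.append_right]
  rw [key, key]
  refine (card_pairs_le (fun u : Fin k → α => ∑ i, φ (u i)) q).trans (le_of_eq ?_)
  refine card_equiv (Equiv.prodCongr (Equiv.refl _) (Equiv.arrowCongr (Equiv.refl _) ν))
    fun u => ?_
  have h1 : (Equiv.prodCongr (Equiv.refl _) (Equiv.arrowCongr (Equiv.refl _) ν)) u =
      (u.1, fun i => ν (u.2 i)) := rfl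
  rw [h1]
  simp only [mem_filter, mem_univ, true_and]
  rw [sum_congr rfl fun i _ => hν (u.2 i), sum_neg_distrib]
  constructor
  · intro h
    rw [h, add_neg_cancel]
  · intro h
    exact eq_of_sub_eq_zero (by rw [sub_eq_add_neg]; exact h)

end Pool.Agent.Y133
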