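import Pool.Agent.H916Y.Conv
import Pool.Agent.Y133.Walk

/-!
# The proportion of the Tate characters which are generated by known ones
-/

namespace Pool.Agent.Y133

open Finset Pool.Agent.H916T

variable {m : ℕ}

open Classical in
/-- The type of a residue: the set of the prime divisors of its order, all even orders being
identified. -/
noncomputable def typ (a : ZMod m) : Finset ℕ :=
  if 2 ∣ addOrderOf a then {2} else (addOrderOf a).primeFactors

lemma typ_neg (a : ZMod m) : typ (-a) = typ a := by
  unfold typ; rw [addOrderOf_neg]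

lemma link_of_typ {p : ℕ} {a b : ZMod m} (ha : a ≠ 0) (hb : b ≠ 0) (h : typ a = typ b) :
    H916Z.Link p a b := by
  refine ⟨ha, hb, ?_⟩
  unfold typ at h
  by_cases h1 : 2 ∣ addOrderOf a <;> by_cases h2 : 2 ∣ addOrderOf b
  · exact Or.inr (Or.inl ⟨h1, h2⟩)
  · rw [if_pos h1, if_neg h2] at h
    exfalso
    apply h2
    have h3 : 2 ∈ (addOrderOf b).primeFactors := by rw [← h]; simp
    exact Nat.dvd_of_mem_primeFactors h3
  · rw [if_neg h1, if_pos h2] at h
    exfalso
    apply h1
    have h3 : 2 ∈ (addOrderOf a).primeFactors := by rw [h]; simp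
    exact Nat.dvd_of_mem_primeFactors h3
  · rw [if_neg h1, if_neg h2] at h
    exact Or.inl h

/-- The types of the nonzero residues. -/
noncomputable def typs (m : ℕ) [NeZero m] : Finset (Finset ℕ) :=
  (univ.filter fun a : ZMod m => a ≠ 0).image typ

lemma typ_mem [NeZero m] {a : ZMod m} (ha : a ≠ 0) : typ a ∈ typs m :=
  mem_image_of_mem _ (by simp [ha])

lemma card_typs_le (m : ℕ) [NeZero m] :
    (typs m).card - 1 ≤ if Even m then 2 ^ (m.primeFactors.card - 1) - 1
      else 2 ^ m.primeFactors.card - 2 := by
  classical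
  have hdvd : ∀ a : ZMod m, addOrderOf a ∣ m := fun a => by
    have := addOrderOf_dvd_card (x := a)
    rwa [ZMod.card] at this
  have hm0 : m ≠ 0 := NeZero.ne m
  split_ifs with he
  · have h2 : 2 ∈ m.primeFactors := Nat.mem_primeFactors.mpr ⟨Nat.prime_two, he.two_dvd, hm0⟩
    have hsub : typs m ⊆ insert {2} ((m.primeFactors.erase 2).powerset.erase ∅) := by
      intro T hT
      obtain ⟨a, ha, rfl⟩ := mem_image.mp hT
      have ha0 : a ≠ 0 := by simpa using ha
      unfold typ
      split_ifs with h
      · exact mem_insert_self _ _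
      · refine mem_insert_of_mem (mem_erase.mpr ⟨?_, mem_powerset.mpr ?_⟩)
        · intro h3
          rw [Nat.primeFactors_eq_empty] at h3
          rcases h3 with h3 | h3
          · exact (addOrderOf_pos a).ne' h3
          · exact ha0 (AddMonoid.addOrderOf_eq_one_iff.mp h3)
        · intro q hq
          refine mem_erase.mpr ⟨?_, ?_⟩
          · rintro rfl
            exact h (Nat.dvd_of_mem_primeFactors hq)
          · exact Nat.primeFactors_mono (hdvd a) hm0 hq
    have h3 := card_le_card hsub
    have h4 : (insert {2} ((m.primeFactors.erase 2).powerset.erase ∅)).card ≤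
        (2 ^ (m.primeFactors.card - 1) - 1) + 1 := by
      refine (card_insert_le _ _).trans ?_
      rw [card_erase_of_mem (empty_mem_powerset _), card_powerset, card_erase_of_mem h2]
    omega
  · have hsub : typs m ⊆ m.primeFactors.powerset.erase ∅ := by
      intro T hT
      obtain ⟨a, ha, rfl⟩ := mem_image.mp hT
      have ha0 : a ≠ 0 := by simpa using ha
      unfold typ
      have h : ¬ 2 ∣ addOrderOf a := fun h => he (even_iff_two_dvd.mpr (h.trans (hdvd a)))
      rw [if_neg h]
      refine mem_erase.mpr ⟨?_, mem_powerset.mpr (Nat.primeFactors_mono (hdvd a) hm0)⟩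
      intro h3
      rw [Nat.primeFactors_eq_empty] at h3
      rcases h3 with h3 | h3
      · exact (addOrderOf_pos a).ne' h3
      · exact ha0 (AddMonoid.addOrderOf_eq_one_iff.mp h3)
    have h3 := card_le_card hsub
    rw [card_erase_of_mem (empty_mem_powerset _), card_powerset] at h3
    omega

/-- The number of subsets with an even number of elements. -/
lemma card_even_powerset_le {β : Type*} [DecidableEq β] (S : Finset β) :
    (S.powerset.filter fun T => Even T.card).card ≤ 2 ^ (S.card - 1) := by
  rcases S.eq_empty_or_nonempty with rfl | ⟨x, hx⟩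
  · refine (card_filter_le _ _).trans ?_
    simp
  · rw [← card_erase_of_mem hx, ← card_powerset]
    refine card_le_card_of_injOn (fun T => T.erase x) ?_ ?_
    · intro T hT
      simp only [coe_filter, mem_powerset, Set.mem_ofPred_eq] at hT
      simp only [coe_powerset, Set.mem_preimage, Set.mem_powerset_iff, coe_subset]
      exact erase_subset_erase x hT.1
    · intro T hT T' hT' h
      simp only [coe_filter, mem_powerset, Set.mem_ofPred_eq] at hT hT'
      simp only at h
      by_cases h1 : x ∈ T <;> by_cases h2 : x ∈ T'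
      · rw [← insert_erase h1, ← insert_erase h2, h]
      · exfalso
        have e1 := card_erase_add_one h1
        rw [h, erase_eq_of_notMem h2] at e1
        have e2 := hT.2
        rw [← e1, Nat.even_add_one] at e2
        exact e2 hT'.2
      · exfalso
        have e1 := card_erase_add_one h2
        rw [← h, erase_eq_of_notMem h1] at e1
        have e2 := hT'.2
        rw [← e1, Nat.even_add_one] at e2
        exact e2 hT.2
      · rw [← erase_eq_of_notMem h1, ← erase_eq_of_notMem h2, h]

/-- A character is known to be algebraic: it is zero or becomes, after raising the degree to a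
multiple prime to `p`, a member of the closure of the characters of surfaces and of the standard
characters. -/
def Known (p m : ℕ) (s : Multiset (ZMod m)) : Prop :=
  s = 0 ∨ ∃ N : ℕ, 0 < N ∧ p.Coprime N ∧
    Generated (N * m)
      (fun t => SurfaceTate p (N * m) t ∨ ∃ q : ℕ, q.Prime ∧ q ∣ N * m ∧ Standard q (N * m) t)
      (s.map fun a => ((N * a.val : ℕ) : ZMod (N * m)))

/-- Sums over a multiset as additive homomorphisms. -/
def sumHom {G : Type*} [AddCommGroup G] (f : ZMod m → G) : Multiset (ZMod m) →+ G where
  toFun s := (s.map f).sum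
  map_zero' := by simp
  map_add' s t := by simp

lemma sumHom_apply {G : Type*} [AddCommGroup G] (f : ZMod m → G) (s : Multiset (ZMod m)) :
    sumHom f s = (s.map f).sum := rfl

lemma sum_ind (P : ZMod m → Prop) [DecidablePred P] (s : Multiset (ZMod m)) :
    (s.map fun a => if P a then (1 : ZMod 2) else 0).sum = (s.countP P : ZMod 2) := by
  induction s using Multiset.induction_on with
  | empty => simp
  | cons a s ih =>
    rw [Multiset.map_cons, Multiset.sum_cons, ih, Multiset.countP_cons]
    split_ifs <;> push_cast <;> ring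

open Classical in
/-- The invariants of a residue: itself, its Stickelberger sums, and the indicator of its type. -/
noncomputable def inv (p : ℕ) (a : ZMod m) :
    ZMod m × ((ZMod m)ˣ → ℤ) × (Finset ℕ → ZMod 2) :=
  (a, fun t => W p ((t : ZMod m) * a), fun T => if typ a = T then 1 else 0)

lemma inv_neg [NeZero m] (p : ℕ) (a : ZMod m) : inv p (-a) = - inv p a := by
  classical
  unfold inv
  refine Prod.ext rfl (Prod.ext ?_ ?_)
  · funext t
    change W p ((t : ZMod m) * -a) = - W p ((t : ZMod m) * a)
    rw [mul_neg, W_neg]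
  · funext T
    change (if typ (-a) = T then (1 : ZMod 2) else 0) = - (if typ a = T then (1 : ZMod 2) else 0)
    rw [typ_neg]
    split_ifs
    · decide
    · simp

lemma sum_inv_neg [NeZero m] (p : ℕ) (s : Multiset (ZMod m)) :
    ((s.map Neg.neg).map (inv p)).sum = - (s.map (inv p)).sum := by
  induction s using Multiset.induction_on with
  | empty => simp
  | cons a s ih =>
    rw [Multiset.map_cons, Multiset.map_cons, Multiset.sum_cons, ih, Multiset.map_cons,
      Multiset.sum_cons, inv_neg, neg_add]

lemma sum_pair {ι : Type*} (s : Multiset ι) {A B : Type*} [AddCommMonoid A] [AddCommMonoid B]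
    (f : ι → A × B) : (s.map f).sum = ((s.map fun i => (f i).1).sum, (s.map fun i => (f i).2).sum) := by
  induction s using Multiset.induction_on with
  | empty => rfl
  | cons a s ih =>
    rw [Multiset.map_cons, Multiset.sum_cons, ih, Multiset.map_cons, Multiset.map_cons,
      Multiset.sum_cons, Multiset.sum_cons]
    rfl

lemma sum_fun {ι : Type*} (s : Multiset ι) {κ A : Type*} [AddCommMonoid A] (f : ι → κ → A) (k : κ) :
    (s.map f).sum k = (s.map fun i => f i k).sum := by
  induction s using Multiset.induction_on with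
  | empty => simp
  | cons a s ih =>
    rw [Multiset.map_cons, Multiset.sum_cons, Pi.add_apply, ih, Multiset.map_cons,
      Multiset.sum_cons]

open Classical in
lemma sum_inv (p : ℕ) (s : Multiset (ZMod m)) : (s.map (inv p)).sum =
    (s.sum, fun t : (ZMod m)ˣ => (s.map fun a => W p ((t : ZMod m) * a)).sum,
      fun T => (s.countP (fun a => typ a = T) : ZMod 2)) := by
  rw [sum_pair, sum_pair]
  refine Prod.ext ?_ (Prod.ext ?_ ?_)
  · change (s.map fun a => a).sum = s.sum
    rw [Multiset.map_id']
  · funext t
    change (s.map fun a => (inv p a).2.1).sum t = _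
    rw [sum_fun]
    rfl
  · funext T
    change (s.map fun a => (inv p a).2.2).sum T = _
    rw [sum_fun]
    exact sum_ind (fun a => typ a = T) s

open Classical in
/-- The number of the elements of a multiset of nonzero residues with a property which depends only on
the type. -/
lemma countP_of_typ [NeZero m] (s : Multiset (ZMod m)) (h0 : (0 : ZMod m) ∉ s)
    (P : ZMod m → Prop) (hP : ∀ a b, a ≠ 0 → b ≠ 0 → typ a = typ b → (P a ↔ P b)) :
    s.countP P = ∑ T ∈ (typs m).filter (fun T => ∃ a, a ≠ 0 ∧ typ a = T ∧ P a),
      s.countP (fun a => typ a = T) := by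
  induction s using Multiset.induction_on with
  | empty => simp
  | cons b s ih =>
    have hb : b ≠ 0 := fun h => h0 (by rw [h]; exact Multiset.mem_cons_self _ _)
    have hs : (0 : ZMod m) ∉ s := fun h => h0 (Multiset.mem_cons_of_mem h)
    rw [Multiset.countP_cons, ih hs]
    simp only [Multiset.countP_cons]
    rw [sum_add_distrib]
    congr 1
    rw [sum_ite_eq]
    congr 1
    apply propext
    rw [mem_filter]
    constructor
    · intro h
      exact ⟨typ_mem hb, b, hb, rfl, h⟩
    · rintro ⟨_, a, ha, hab, h⟩
      exact (hP a b ha hb hab).mp h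

open Classical in
lemma known_of_inv {p : ℕ} [NeZero m] (hp : p.Prime) (hpm : p.Coprime m) {s : Multiset (ZMod m)}
    (h0 : (0 : ZMod m) ∉ s) (hs : (s.map (inv p)).sum = 0) : IsTate p m s ∧ Known p m s := by
  rw [sum_inv] at hs
  have h1 : s.sum = 0 := congrArg Prod.fst hs
  have h2 : ∀ t : (ZMod m)ˣ, (s.map fun a => W p ((t : ZMod m) * a)).sum = 0 := fun t =>
    congrFun (congrArg (fun x => x.2.1) hs) t
  have h3 : ∀ T, Even (s.countP (fun a => typ a = T)) := fun T => by
    have h4 : ((s.countP (fun a => typ a = T) : ℕ) : ZMod 2) = 0 :=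
      congrFun (congrArg (fun x => x.2.2) hs) T
    rw [ZMod.natCast_eq_zero_iff] at h4
    exact even_iff_two_dvd.mpr h4
  have h4 : ∀ P : ZMod m → Prop, (∀ a b, a ≠ 0 → b ≠ 0 → typ a = typ b → (P a ↔ P b)) →
      Even (s.countP P) := by
    intro P hP
    rw [countP_of_typ s h0 P hP]
    exact even_sum _ fun T _ => h3 T
  have heven : Even (Multiset.card s) := by
    have h5 := h4 (fun _ => True) (fun _ _ _ _ _ => Iff.rfl)
    have h6 : s.countP (fun _ => True) = Multiset.card s :=
      Multiset.countP_eq_card.mpr fun _ _ => trivial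
    rw [← h6]
    convert h5
  have hT : IsTate p m s := isTate_of_W hpm h0 heven h1 h2
  refine ⟨hT, ?_⟩
  by_cases hs0 : s = 0
  · exact Or.inl hs0
  · right
    obtain ⟨N, hN, hpN, H⟩ := H916Y.parity_main hp (NeZero.pos m) hpm hT hs0 (by
      intro a
      refine h4 _ fun b c hb hc hbc => ?_
      have hl : H916Z.Link p b c := link_of_typ hb hc hbc
      exact ⟨fun h => h.trans _ _ _ (Relation.EqvGen.rel _ _ hl),
        fun h => h.trans _ _ _ ((Relation.EqvGen.rel _ _ hl).symm _ _)⟩)
    exact ⟨N, hN, hpN, H (N * m) rfl⟩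

open Classical in
lemma inv_of_tate {p : ℕ} [NeZero m] (hpm : p.Coprime m) {s : Multiset (ZMod m)}
    (hs : IsTate p m s) : ∃ T ∈ (typs m).powerset.filter (fun T => Even T.card),
      (s.map (inv p)).sum = (0, 0, fun t => if t ∈ T then 1 else 0) := by
  refine ⟨(typs m).filter fun t => Odd (s.countP (fun a => typ a = t)), ?_, ?_⟩
  · rw [mem_filter, mem_powerset]
    refine ⟨filter_subset _ _, ?_⟩
    have h1 := countP_of_typ s hs.1 (fun _ => True) (fun _ _ _ _ _ => Iff.rfl)
    have h6 : Multiset.card s = s.countP (fun _ => True) :=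
      (Multiset.countP_eq_card.mpr fun _ _ => trivial).symm
    have h7 : Multiset.card s = ∑ T ∈ (typs m).filter (fun T => ∃ a : ZMod m, a ≠ 0 ∧ typ a = T ∧
        True), s.countP (fun a => typ a = T) := by
      rw [h6]
      convert h1
    have h2 : (typs m).filter (fun T => ∃ a : ZMod m, a ≠ 0 ∧ typ a = T ∧ True) = typs m := by
      refine filter_true_of_mem fun T hT => ?_
      obtain ⟨a, ha, rfl⟩ := mem_image.mp hT
      exact ⟨a, by simpa using ha, rfl, trivial⟩
    rw [h2] at h7
    have h3 := hs.2.1
    rw [h7, Finset.even_sum_iff_even_card_odd] at h3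
    exact h3
  · rw [sum_inv]
    refine Prod.ext hs.2.2.1 (Prod.ext ?_ ?_)
    · funext t
      exact hs.W_sum hpm t
    · funext t
      change ((s.countP (fun a => typ a = t) : ℕ) : ZMod 2) = if _ then 1 else 0
      by_cases h : Odd (s.countP (fun a => typ a = t))
      · rw [if_pos]
        · rw [(ZMod.natCast_eq_one_iff_odd).mpr h]
        · rw [mem_filter]
          refine ⟨?_, h⟩
          have h5 : 0 < s.countP (fun a => typ a = t) := h.pos
          rw [Multiset.countP_pos] at h5
          obtain ⟨a, ha, rfl⟩ := h5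
          exact typ_mem fun h6 => hs.1 (h6 ▸ ha)
      · rw [if_neg]
        · rw [ZMod.natCast_eq_zero_iff_even.mpr (Nat.not_odd_iff_even.mp h)]
        · rw [mem_filter]
          exact fun h6 => h h6.2

/-- **The proportion of the known characters among the Tate characters.** -/
theorem proportion (p m : ℕ) (hp : p.Prime) (hm : 0 < m) (hpm : p.Coprime m) {α : Type*}
    [Finite α] (χ : α → Multiset (ZMod m)) (ν : α ≃ α) (h0 : ∀ x, (0 : ZMod m) ∉ χ x)
    (hν : ∀ x, χ (ν x) = (χ x).map Neg.neg) (N : ℕ) (hN : Even N) :
    Nat.card {x : Fin N → α // IsTate p m (∑ i, χ (x i))} ≤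
      2 ^ (if Even m then 2 ^ (m.primeFactors.card - 1) - 1 else 2 ^ m.primeFactors.card - 2) *
        Nat.card {x : Fin N → α //
          IsTate p m (∑ i, χ (x i)) ∧ Known p m (∑ i, χ (x i))} := by
  classical
  have hz : NeZero m := ⟨hm.ne'⟩
  have := Fintype.ofFinite α
  set φ : α → ZMod m × ((ZMod m)ˣ → ℤ) × (Finset ℕ → ZMod 2) :=
    fun x => ((χ x).map (inv p)).sum with hφ
  have hsum : ∀ x : Fin N → α, ∑ i, φ (x i) = ((∑ i, χ (x i)).map (inv p)).sum := by
    intro x
    rw [← sumHom_apply, map_sum]
    rfl
  have hneg : ∀ x, φ (ν x) = - φ x := by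
    intro x
    rw [hφ]
    simp only
    rw [hν, sum_inv_neg]
  have hn0 : ∀ x : Fin N → α, (0 : ZMod m) ∉ ∑ i, χ (x i) := by
    intro x h
    rw [Multiset.mem_sum] at h
    obtain ⟨i, _, hi⟩ := h
    exact h0 _ hi
  set E := (typs m).powerset.filter (fun T => Even T.card) with hE
  have h1 : Nat.card {x : Fin N → α // IsTate p m (∑ i, χ (x i))} ≤
      ∑ T ∈ E, Nat.card {x : Fin N → α //
        ∑ i, φ (x i) = (0, 0, fun t => if t ∈ T then 1 else 0)} := by
    rw [Nat.card_eq_fintype_card, Fintype.card_subtype]
    have h2 : (univ.filter fun x : Fin N → α => IsTate p m (∑ i, χ (x i))) ⊆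
        E.biUnion fun T => univ.filter fun x : Fin N → α =>
          ∑ i, φ (x i) = (0, 0, fun t => if t ∈ T then 1 else 0) := by
      intro x hx
      rw [mem_filter] at hx
      obtain ⟨T, hT, h⟩ := inv_of_tate hpm hx.2
      rw [mem_biUnion]
      refine ⟨T, hT, ?_⟩
      rw [mem_filter]
      exact ⟨mem_univ _, by rw [hsum, h]⟩
    refine (card_le_card h2).trans (card_biUnion_le.trans (sum_le_sum fun T _ => ?_))
    rw [Nat.card_eq_fintype_card, Fintype.card_subtype]
  have h2 : Nat.card {x : Fin N → α // ∑ i, φ (x i) = 0} ≤ Nat.card {x : Fin N → α //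
      IsTate p m (∑ i, χ (x i)) ∧ Known p m (∑ i, χ (x i))} := by
    refine Nat.card_le_card_of_injective
      (fun x => ⟨x.1, known_of_inv hp hpm (hn0 x.1) (by rw [← hsum]; exact x.2)⟩) ?_
    intro x y hxy
    exact Subtype.ext (congrArg (fun z => z.1) hxy)
  calc Nat.card {x : Fin N → α // IsTate p m (∑ i, χ (x i))}
      ≤ ∑ T ∈ E, Nat.card {x : Fin N → α //
        ∑ i, φ (x i) = (0, 0, fun t => if t ∈ T then 1 else 0)} := h1
    _ ≤ ∑ T ∈ E, Nat.card {x : Fin N → α // ∑ i, φ (x i) = 0} :=
        sum_le_sum fun T _ => card_walk_le φ ν hneg hN _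
    _ = E.card * Nat.card {x : Fin N → α // ∑ i, φ (x i) = 0} := by
        rw [sum_const, smul_eq_mul]
    _ ≤ _ := Nat.mul_le_mul ((card_even_powerset_le _).trans
        (Nat.pow_le_pow_right (by norm_num) (card_typs_le m))) h2

end Pool.Agent.Y133
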